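import Pool.Agent.Q149.SepC

open Set Filter Topology

namespace Pool.Agent.Results.MP_8a822d_gt.CrossUniform

open Q149.SepC

universe u v

/-- There is a Rosenthal compactum `K` that, for no Polish spaces `X` and `Y`, embeds into the
space `S_cru(X × Y)` of separately continuous functions with the cross-uniform topology. -/
theorem result : ∃ (K : Type) (_ : TopologicalSpace K), RosenthalCompact K ∧
    ∀ (X : Type u) (Y : Type v) [TopologicalSpace X] [TopologicalSpace Y]
      [PolishSpace X] [PolishSpace Y],
      ¬ ∃ f : K → S X Y, @IsEmbedding K (S X Y) _ (crossUniform X Y) f := by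
  refine ⟨KK, inferInstance, rosenthal_KK, ?_⟩
  intro X Y _ _ _ _
  rintro ⟨f, hf⟩
  haveI : CompactSpace KK := isCompact_iff_compactSpace.1 isCompact_KK
  letI := TopologicalSpace.upgradeIsCompletelyMetrizable X
  letI := TopologicalSpace.upgradeIsCompletelyMetrizable Y
  exact not_secondCountable_KK
    (secondCountable_of_injection (crossUniform X Y) continuous_eval_cru f
      (@IsEmbedding.continuous _ _ _ _ (crossUniform X Y) hf)
      (@IsEmbedding.injective _ _ _ (crossUniform X Y) _ hf))

end Pool.Agent.Results.MP_8a822d_gt.CrossUniform
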